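import Pool.Agent.W434.NUM.Stm

set_option autoImplicit false

namespace Pool.Agent.W54.NUM

open Pool.Agent.W434.NUM

section walks

variable {A : Type} {R : A → A → Prop}

theorem wk_add {a b : ℕ} {x y z : A} (h : Wk R a x y) (h' : Wk R b y z) : Wk R (a + b) x z := by
  induction a generalizing x with
  | zero => rw [Nat.zero_add]; cases h; exact h'
  | succ a ih =>
    obtain ⟨w, hw, hw'⟩ := h
    rw [Nat.add_right_comm]
    exact ⟨w, hw, ih hw'⟩

theorem wk_one {x y : A} (h : R x y) : Wk R 1 x y := ⟨y, h, rfl⟩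

theorem wk_seq {a : ℕ → A} (h : ∀ i, R (a i) (a (i + 1))) (i k : ℕ) : Wk R k (a i) (a (i + k)) := by
  induction k generalizing i with
  | zero => exact rfl
  | succ k ih =>
    refine ⟨a (i + 1), h i, ?_⟩
    have := ih (i + 1)
    rwa [Nat.add_right_comm] at this

theorem wk_back {u : ℕ → A} (h : ∀ i, R (u (i + 1)) (u i)) (k : ℕ) : Wk R k (u k) (u 0) := by
  induction k with
  | zero => exact rfl
  | succ k ih => exact ⟨u k, h k, ih⟩

theorem wk_cpt {n : ℕ} {f : (Fin n → A) → A} (hc : Cpt f R) (k : ℕ) :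
    ∀ x y : Fin n → A, (∀ i, Wk R k (x i) (y i)) → Wk R k (f x) (f y) := by
  induction k with
  | zero =>
    intro x y h
    have : x = y := funext h
    rw [this]; exact rfl
  | succ k ih =>
    intro x y h
    choose z hz hz' using h
    exact ⟨f z, hc x z hz, ih z y hz'⟩

theorem wk_mul {L : ℕ} {c : A} (h : Wk R L c c) (j : ℕ) : Wk R (L * j) c c := by
  induction j with
  | zero => exact rfl
  | succ j ih => rw [Nat.mul_succ]; exact wk_add ih h

theorem per_mul {B : Type} {a : ℕ → B} {L : ℕ} (h : ∀ i, a (i + L) = a i) (i j : ℕ) :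
    a (i + L * j) = a i := by
  induction j with
  | zero => rfl
  | succ j ih => rw [Nat.mul_succ, ← Nat.add_assoc, h, ih]

end walks

theorem nu3 {A : Type} {f : (Fin 3 → A) → A} (hf : NU f) (x y : A) :
    f ![x, x, y] = x ∧ f ![x, y, x] = x ∧ f ![y, x, x] = x := by
  refine ⟨?_, ?_, ?_⟩
  · have h : (![x, x, y] : Fin 3 → A) = Function.update (fun _ => x) 2 y := by
      funext i; fin_cases i <;> simp [Function.update]
    rw [h]; exact hf x y 2
  · have h : (![x, y, x] : Fin 3 → A) = Function.update (fun _ => x) 1 y := by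
      funext i; fin_cases i <;> simp [Function.update]
    rw [h]; exact hf x y 1
  · have h : (![y, x, x] : Fin 3 → A) = Function.update (fun _ => x) 0 y := by
      funext i; fin_cases i <;> simp [Function.update]
    rw [h]; exact hf x y 0

theorem wk_cpt3 {A : Type} {R : A → A → Prop} {f : (Fin 3 → A) → A} (hc : Cpt f R) (k : ℕ)
    {x y z x' y' z' : A} (h1 : Wk R k x x') (h2 : Wk R k y y') (h3 : Wk R k z z') :
    Wk R k (f ![x, y, z]) (f ![x', y', z']) := by
  apply wk_cpt hc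
  intro i
  fin_cases i
  · exact h1
  · exact h2
  · exact h3

/-- eventually periodic iterates -/
theorem evper {T : Type} [Finite T] (σ π : T → T) :
    ∃ N L : ℕ, 1 ≤ L ∧ (∀ i, σ^[N + i + L] = σ^[N + i]) ∧ (∀ i, π^[N + i + L] = π^[N + i]) := by
  obtain ⟨a, b, hab, h⟩ := Finite.exists_ne_map_eq_of_infinite
    (fun n : ℕ => ((σ^[n], π^[n]) : (T → T) × (T → T)))
  wlog hlt : a < b generalizing a b
  · exact this b a hab.symm h.symm (by omega)
  have h1 : σ^[a] = σ^[b] := (Prod.mk.injEq _ _ _ _ ▸ h : _ ∧ _).1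
  have h2 : π^[a] = π^[b] := (Prod.mk.injEq _ _ _ _ ▸ h : _ ∧ _).2
  refine ⟨a, b - a, by omega, ?_, ?_⟩
  · intro i
    have : a + i + (b - a) = i + b := by omega
    rw [this, Nat.add_comm a i, Function.iterate_add, Function.iterate_add, h1]
  · intro i
    have : a + i + (b - a) = i + b := by omega
    rw [this, Nat.add_comm a i, Function.iterate_add, Function.iterate_add, h2]

theorem exists_res (L : ℕ) (hL : 1 ≤ L) (N : ℕ) (r : ℤ) : ∃ i : ℕ, (L : ℤ) ∣ ((N + i : ℕ) : ℤ) + r := by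
  have hL' : (L : ℤ) ≠ 0 := by exact_mod_cast (by omega : L ≠ 0)
  refine ⟨((-(N + r)) % (L : ℤ)).toNat, ?_⟩
  have h0 : 0 ≤ (-(N + r)) % (L : ℤ) := Int.emod_nonneg _ hL'
  push_cast
  rw [Int.toNat_of_nonneg h0]
  have h1 := Int.emod_add_mul_ediv (-(N + r)) (L : ℤ)
  have h2 : (N : ℤ) + (-(N + r)) % (L : ℤ) + r = (L : ℤ) * (-((-(N + r)) / (L : ℤ))) := by
    linarith
  rw [h2]
  exact dvd_mul_right _ _

/-- periodic bi-walks -/
def Wt {A : Type} (R : A → A → Prop) (L : ℕ) : Type :=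
  {a : ℕ → A // (∀ i, R (a i) (a (i + 1))) ∧ ∀ i, a (i + L) = a i}

theorem wt_closed {A : Type} {R : A → A → Prop} {L : ℕ} (a : Wt R L) (i j : ℕ) :
    Wk R (L * j) (a.1 i) (a.1 i) := by
  have h := wk_seq a.2.1 i (L * j)
  rwa [per_mul a.2.2] at h

def Up {A : Type} (R : A → A → Prop) (L : ℕ) (v : A) (r : ℤ) (a : Wt R L) : Prop :=
  ∃ k : ℕ, (L : ℤ) ∣ k + r ∧ Wk R k v (a.1 0)

def Dn {A : Type} (R : A → A → Prop) (L : ℕ) (v : A) (r : ℤ) (b : Wt R L) : Prop :=
  ∃ k : ℕ, (L : ℤ) ∣ k - r ∧ Wk R k (b.1 0) v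

def Le {A : Type} (R : A → A → Prop) (L : ℕ) (a b : Wt R L) : Prop :=
  ∃ j : ℕ, Wk R (L * j) (a.1 0) (b.1 0)

def tau {A : Type} (R : A → A → Prop) (L : ℕ) (a : Wt R L) : Wt R L :=
  ⟨fun i => a.1 (i + 1), fun i => a.2.1 (i + 1), fun i => by
    have := a.2.2 (i + 1)
    rwa [Nat.add_right_comm] at this⟩

def md {A : Type} (R : A → A → Prop) (L : ℕ) (f : (Fin 3 → A) → A) (hc : Cpt f R)
    (x y z : Wt R L) : Wt R L :=
  ⟨fun i => f ![x.1 i, y.1 i, z.1 i], fun i => by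
    apply hc
    intro j
    fin_cases j
    · exact x.2.1 i
    · exact y.2.1 i
    · exact z.2.1 i, fun i => by
    show f ![x.1 (i + L), y.1 (i + L), z.1 (i + L)] = _
    rw [x.2.2, y.2.2, z.2.2]⟩

theorem tau_iter {A : Type} (R : A → A → Prop) (L : ℕ) (a : Wt R L) (n i : ℕ) :
    ((tau R L)^[n] a).1 i = a.1 (i + n) := by
  induction n generalizing a with
  | zero => rfl
  | succ n ih =>
    rw [Function.iterate_succ_apply, ih]
    show a.1 (i + n + 1) = _
    rfl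

theorem le_of_dn_up {A : Type} {R : A → A → Prop} {L : ℕ} {v : A} {r : ℤ} {a b : Wt R L}
    (hb : Dn R L v r b) (ha : Up R L v r a) : Le R L b a := by
  obtain ⟨k, hk, hk'⟩ := hb
  obtain ⟨l, hl, hl'⟩ := ha
  have h : (L : ℤ) ∣ ((k + l : ℕ) : ℤ) := by
    have := dvd_add hk hl
    push_cast
    have e : (k : ℤ) - r + (l + r) = k + l := by ring
    rwa [e] at this
  have h' : L ∣ k + l := by exact_mod_cast h
  obtain ⟨j, hj⟩ := h'
  refine ⟨j, ?_⟩
  rw [← hj]
  exact wk_add hk' hl'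

theorem up_mono {A : Type} {R : A → A → Prop} {L : ℕ} {v v' : A} {r : ℤ} {a : Wt R L}
    (h : R v v') (ha : Up R L v' (r + 1) a) : Up R L v r a := by
  obtain ⟨k, hk, hk'⟩ := ha
  refine ⟨k + 1, ?_, ⟨v', h, hk'⟩⟩
  have e : ((k + 1 : ℕ) : ℤ) + r = k + (r + 1) := by push_cast; ring
  rwa [e]

theorem dn_mono {A : Type} {R : A → A → Prop} {L : ℕ} {v v' : A} {r : ℤ} {b : Wt R L}
    (h : R v v') (hb : Dn R L v r b) : Dn R L v' (r + 1) b := by
  obtain ⟨k, hk, hk'⟩ := hb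
  refine ⟨k + 1, ?_, wk_add hk' (wk_one h)⟩
  have e : ((k + 1 : ℕ) : ℤ) - (r + 1) = k - r := by push_cast; ring
  rwa [e]

theorem red (h : S_fix) : S_red := by
  classical
  intro A R S hR hsm hcyc f hNU hC
  obtain ⟨k, v, e, hv, he, hsum⟩ := hcyc
  -- successor and predecessor maps
  have hs1 : ∀ p : {p // p ∈ S}, ∃ q : {p // p ∈ S}, q.1.1 = p.1.2 := fun p => by
    obtain ⟨q, hq, hq'⟩ := (hsm p.1 p.2).2
    exact ⟨⟨q, hq⟩, hq'⟩
  have hs2 : ∀ p : {p // p ∈ S}, ∃ q : {p // p ∈ S}, q.1.2 = p.1.1 := fun p => by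
    obtain ⟨q, hq, hq'⟩ := (hsm p.1 p.2).1
    exact ⟨⟨q, hq⟩, hq'⟩
  choose σ hσ using hs1
  choose π hπ using hs2
  obtain ⟨N, L, hL, hσL, hπL⟩ := evper σ π
  -- nonempty
  have upne : ∀ (w : A), (∃ p ∈ S, p.1 = w) → ∀ r : ℤ, ∃ a : Wt R L, Up R L w r a := by
    rintro w ⟨p, hp, hpw⟩ r
    obtain ⟨i, hi⟩ := exists_res L hL N r
    let t : ℕ → A := fun n => (σ^[n] ⟨p, hp⟩).1.1
    have ht : ∀ n, R (t n) (t (n + 1)) := by
      intro n
      have h1 := hR (σ^[n] ⟨p, hp⟩).1 (σ^[n] ⟨p, hp⟩).2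
      have h2 : t (n + 1) = (σ^[n] ⟨p, hp⟩).1.2 := by
        show (σ^[n + 1] ⟨p, hp⟩).1.1 = _
        rw [Function.iterate_succ_apply', hσ]
      rw [h2]; exact h1
    have htL : ∀ n, t (N + n + L) = t (N + n) := by
      intro n
      show (σ^[N + n + L] ⟨p, hp⟩).1.1 = _
      rw [hσL]
    refine ⟨⟨fun n => t (N + i + n), fun n => ht _, fun n => ?_⟩, N + i, hi, ?_⟩
    · show t (N + i + (n + L)) = t (N + i + n)
      have e1 : N + i + (n + L) = N + (i + n) + L := by omega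
      have e2 : N + i + n = N + (i + n) := by omega
      rw [e1, e2]; exact htL _
    · have h3 := wk_seq ht 0 (N + i)
      have h4 : t 0 = w := hpw
      rw [h4, Nat.zero_add] at h3
      exact h3
  have dnne : ∀ (w : A), (∃ p ∈ S, p.2 = w) → ∀ r : ℤ, ∃ b : Wt R L, Dn R L w r b := by
    rintro w ⟨p, hp, hpw⟩ r
    obtain ⟨i, hi⟩ := exists_res L hL N (-r)
    let u : ℕ → A := fun n => (π^[n] ⟨p, hp⟩).1.2
    have hu : ∀ n, R (u (n + 1)) (u n) := by
      intro n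
      have h1 := hR (π^[n] ⟨p, hp⟩).1 (π^[n] ⟨p, hp⟩).2
      have h2 : u (n + 1) = (π^[n] ⟨p, hp⟩).1.1 := by
        show (π^[n + 1] ⟨p, hp⟩).1.2 = _
        rw [Function.iterate_succ_apply', hπ]
      rw [h2]; exact h1
    have huL : ∀ n, u (N + n + L) = u (N + n) := by
      intro n
      show (π^[N + n + L] ⟨p, hp⟩).1.2 = _
      rw [hπL]
    have huL' : ∀ n j, u (N + n + L * j) = u (N + n) := by
      intro n j
      have := per_mul (a := fun n => u (N + n)) (L := L) (fun n => by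
        show u (N + (n + L)) = u (N + n)
        rw [← Nat.add_assoc]; exact huL n) n j
      rw [Nat.add_assoc]
      exact this
    refine ⟨⟨fun n => u (N + (i + (L - 1) * n)), fun n => ?_, fun n => ?_⟩, N + i, ?_, ?_⟩
    · show R (u (N + (i + (L - 1) * n))) (u (N + (i + (L - 1) * (n + 1))))
      have h3 := hu (N + (i + (L - 1) * (n + 1)))
      have e1 : N + (i + (L - 1) * (n + 1)) + 1 = N + (i + (L - 1) * n) + L := by
        obtain ⟨M, rfl⟩ : ∃ M, L = M + 1 := ⟨L - 1, by omega⟩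
        rw [Nat.add_sub_cancel]; ring
      rw [e1, huL] at h3
      exact h3
    · show u (N + (i + (L - 1) * (n + L))) = u (N + (i + (L - 1) * n))
      have e1 : N + (i + (L - 1) * (n + L)) = N + (i + (L - 1) * n) + L * (L - 1) := by ring
      rw [e1]; exact huL' _ _
    · have e1 : ((N + i : ℕ) : ℤ) - r = ((N + i : ℕ) : ℤ) + -r := by ring
      rw [e1]; exact hi
    · have h3 := wk_back hu (N + i)
      have h4 : u 0 = w := hpw
      rw [h4] at h3
      exact h3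
  -- endpoints
  have ep1 : ∀ p ∈ S, (∃ q ∈ S, q.1 = p.1) ∧ (∃ q ∈ S, q.2 = p.1) := fun p hp =>
    ⟨⟨p, hp, rfl⟩, (hsm p hp).1⟩
  have ep2 : ∀ p ∈ S, (∃ q ∈ S, q.1 = p.2) ∧ (∃ q ∈ S, q.2 = p.2) := fun p hp =>
    ⟨(hsm p hp).2, ⟨p, hp, rfl⟩⟩
  have hk0 : 0 < k := by
    rcases Nat.eq_zero_or_pos k with h0 | h0
    · subst h0; simp at hsum
    · exact h0
  have epv : ∀ i < k, ((∃ q ∈ S, q.1 = v i) ∧ (∃ q ∈ S, q.2 = v i)) ∧
      ((∃ q ∈ S, q.1 = v (i + 1)) ∧ (∃ q ∈ S, q.2 = v (i + 1))) := by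
    intro i hi
    rcases he i hi with ⟨-, h1⟩ | ⟨-, h1⟩
    · exact ⟨ep1 _ h1, ep2 _ h1⟩
    · exact ⟨ep2 _ h1, ep1 _ h1⟩
  obtain ⟨a0, ha0⟩ := upne (v 0) (epv 0 hk0).1.1 0
  -- connection
  have conn : ∀ i ≤ k, ∃ b : Wt R L, Dn R L (v i) (∑ t ∈ Finset.range i, e t) b ∧
      Relation.ReflTransGen (fun a b => Le R L a b ∨ Le R L b a) b a0 := by
    intro i
    induction i with
    | zero =>
      intro _
      obtain ⟨b, hb⟩ := dnne (v 0) (epv 0 hk0).1.2 0
      refine ⟨b, by simpa using hb, Relation.ReflTransGen.single (Or.inl (le_of_dn_up hb ha0))⟩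
    | succ i ih =>
      intro hi
      obtain ⟨b, hb, hb'⟩ := ih (by omega)
      rw [Finset.sum_range_succ]
      rcases he i (by omega) with ⟨h1, h2⟩ | ⟨h1, h2⟩
      · rw [h1]
        exact ⟨b, dn_mono (hR _ h2) hb, hb'⟩
      · rw [h1]
        obtain ⟨b', hb1⟩ := dnne (v (i + 1)) (epv i (by omega)).2.2
          (∑ t ∈ Finset.range i, e t + -1)
        obtain ⟨a, ha⟩ := upne (v i) (epv i (by omega)).1.1 (∑ t ∈ Finset.range i, e t)
        have hb2 := dn_mono (hR _ h2) hb1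
        rw [neg_add_cancel_right] at hb2
        refine ⟨b', hb1, ?_⟩
        refine Relation.ReflTransGen.head (Or.inl (le_of_dn_up hb2 ha)) ?_
        exact Relation.ReflTransGen.head (Or.inr (le_of_dn_up hb ha)) hb'
  obtain ⟨b, hb, hb'⟩ := conn k le_rfl
  rw [hsum, hv] at hb
  have hx : Up R L (v 0) 1 ((tau R L)^[L - 1] a0) := by
    obtain ⟨l, hl, hl'⟩ := ha0
    refine ⟨l + (L - 1), ?_, ?_⟩
    · have e1 : ((l + (L - 1) : ℕ) : ℤ) + 1 = (l + 0) + L := by
        push_cast [Nat.cast_sub hL]; ring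
      rw [e1]
      exact dvd_add hl (dvd_refl _)
    · rw [tau_iter]
      exact wk_add hl' (wk_seq a0.2.1 0 (L - 1))
  have htx : tau R L ((tau R L)^[L - 1] a0) = a0 := by
    have e0 := Function.iterate_succ_apply' (tau R L) (L - 1) a0
    rw [← e0]
    have e1 : (L - 1).succ = L := by omega
    rw [e1]
    apply Subtype.ext
    funext i
    rw [tau_iter, a0.2.2]
  have hfix := h (Wt R L) (md R L f hC) (Le R L) (tau R L) L hL
    (by
      intro x y
      refine ⟨?_, ?_, ?_⟩ <;> apply Subtype.ext <;> funext i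
      · exact (nu3 hNU (x.1 i) (y.1 i)).1
      · exact (nu3 hNU (x.1 i) (y.1 i)).2.1
      · exact (nu3 hNU (x.1 i) (y.1 i)).2.2)
    (fun x => ⟨0, rfl⟩)
    (by
      rintro x y z ⟨i, hi⟩ ⟨j, hj⟩
      exact ⟨i + j, by rw [Nat.mul_add]; exact wk_add hi hj⟩)
    (by
      rintro x x' y y' z z' ⟨i, hi⟩ ⟨j, hj⟩ ⟨l, hl⟩
      refine ⟨i + j + l, ?_⟩
      apply wk_cpt3 hC
      · have e1 : L * (i + j + l) = L * (j + l) + L * i := by ring
        rw [e1]; exact wk_add (wt_closed x 0 _) hi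
      · have e1 : L * (i + j + l) = L * (i + l) + L * j := by ring
        rw [e1]; exact wk_add (wt_closed y 0 _) hj
      · have e1 : L * (i + j + l) = L * (i + j) + L * l := by ring
        rw [e1]; exact wk_add (wt_closed z 0 _) hl)
    (fun x y z => rfl)
    (by
      rintro x y ⟨j, hj⟩
      refine ⟨j + 1, ?_⟩
      have h1 := wk_seq x.2.1 1 (L - 1)
      have e1 : 1 + (L - 1) = 0 + L := by omega
      rw [e1, x.2.2] at h1
      have h2 := wk_add (wk_add h1 hj) (wk_one (y.2.1 0))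
      have e2 : L * (j + 1) = L - 1 + L * j + 1 := by
        rw [Nat.mul_succ]; omega
      rw [e2]
      exact h2)
    (by
      intro x
      apply Subtype.ext
      funext i
      rw [tau_iter, x.2.2])
    ((tau R L)^[L - 1] a0)
    (by
      rw [htx]
      exact Relation.ReflTransGen.head (Or.inr (le_of_dn_up hb hx)) hb')
  obtain ⟨c, j, hj⟩ := hfix
  have hj' : Wk R (L * j) (c.1 1) (c.1 0) := hj
  have hq : Wk R (L * j + 1) (c.1 0) (c.1 0) := ⟨c.1 1, c.2.1 0, hj'⟩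
  refine ⟨c.1 0, L * (L * j + 1), ?_⟩
  intro k hk
  have hmod : k % L < L := Nat.mod_lt _ (by omega)
  have hle : (L * j + 1) * (k % L) ≤ k :=
    (Nat.mul_le_mul_left _ hmod.le).trans (by rw [Nat.mul_comm]; exact hk)
  have hdvd : L ∣ k - (L * j + 1) * (k % L) := by
    rw [← Nat.modEq_iff_dvd' hle]
    have h1 : (L * j + 1) * (k % L) ≡ 1 * k [MOD L] := by
      apply Nat.ModEq.mul
      · have : L * j + 1 ≡ 0 + 1 [MOD L] :=
          Nat.ModEq.add_right 1 ((Nat.modEq_zero_iff_dvd).2 (dvd_mul_right _ _))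
        simpa using this
      · exact Nat.mod_modEq _ _
    rw [one_mul] at h1
    exact h1
  obtain ⟨y, hy⟩ := hdvd
  have hk2 : k = L * y + (L * j + 1) * (k % L) := by omega
  rw [hk2]
  exact wk_add (wt_closed c 0 y) (wk_mul hq (k % L))

end Pool.Agent.W54.NUM
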